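import Mathlib

set_option autoImplicit false

namespace Pool.Agent.Results.MP_eb4cdf_pr.InvertedBowl

open MeasureTheory

/-- The buffer/blocking regimes of the problem: unlimited buffers, manufacturing blocking with
common buffer size `b`, communications blocking with common buffer size `b`. -/
inductive Regime : Type
  | unlimited : Regime
  | manufacturing (b : ℕ) : Regime
  | communications (b : ℕ) : Regime

/-- `depart T m r i j` is the departure time `D_{i,j}` of job `i` from station `j` (jobs and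
stations are numbered from `1`), where `T i j` is the time job `i` occupies station `j` and `m` is
the number of stations.  Terms with a zero or negative index are `0` (for `i, b : ℕ` the index
`(i + 1) - b - 1` is the truncated difference `i - b`), and station `m` is never blocked. -/
noncomputable def depart (T : ℕ → ℕ → ℝ) (m : ℕ) : Regime → ℕ → ℕ → ℝ
  | _, 0, _ => 0
  | _, _ + 1, 0 => 0
  | .unlimited, i + 1, j + 1 =>
      max (depart T m .unlimited (i + 1) j) (depart T m .unlimited i (j + 1)) + T (i + 1) (j + 1)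
  | .manufacturing b, i + 1, j + 1 =>
      max (max (depart T m (.manufacturing b) (i + 1) j + T (i + 1) (j + 1))
          (depart T m (.manufacturing b) i (j + 1) + T (i + 1) (j + 1)))
        (if j + 1 < m then depart T m (.manufacturing b) (i - b) (j + 2) else 0)
  | .communications b, i + 1, j + 1 =>
      max (max (depart T m (.communications b) (i + 1) j)
          (depart T m (.communications b) i (j + 1)))
        (if j + 1 < m then depart T m (.communications b) (i - b) (j + 2) else 0)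
        + T (i + 1) (j + 1)
  termination_by _ i j => (i, j)
  decreasing_by all_goals simp_wf; omega

/-- Occupation times `T_{i,j} = X_{i,j} / s_j` (numbering from `1`). -/
noncomputable def occ {n m : ℕ} (x : Fin n → Fin m → ℝ) (s : Fin m → ℝ) (i j : ℕ) : ℝ :=
  if h : (1 ≤ i ∧ i ≤ n) ∧ (1 ≤ j ∧ j ≤ m) then
    x ⟨i - 1, by omega⟩ ⟨j - 1, by omega⟩ / s ⟨j - 1, by omega⟩ else 0

/-- The expected makespan `F(s) = E[D_{n,m}]` when the works `X_{i,j}` are i.i.d. with law `μ`. -/
noncomputable def expMakespan (μ : Measure ℝ) (r : Regime) (n m : ℕ) (s : Fin m → ℝ) : ℝ :=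
  ∫ x : Fin n → Fin m → ℝ, depart (occ x s) m r n m
    ∂(Measure.pi fun _ : Fin n => Measure.pi fun _ : Fin m => μ)

/-- The set of allocations: positive speeds with sum `1`. -/
def allocations (m : ℕ) : Set (Fin m → ℝ) := {s | (∀ j, 0 < s j) ∧ ∑ j, s j = 1}

/-- `s` minimises the expected makespan over all allocations. -/
def IsOptimal (μ : Measure ℝ) (r : Regime) (n m : ℕ) (s : Fin m → ℝ) : Prop :=
  s ∈ allocations m ∧ ∀ s' ∈ allocations m, expMakespan μ r n m s ≤ expMakespan μ r n m s'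

/-- Bowl-shaped: symmetric about the middle and nondecreasing on stations `1, …, ⌈m/2⌉`
(the `Fin m` index `j` is station `j + 1`). -/
def BowlShaped {m : ℕ} (s : Fin m → ℝ) : Prop :=
  (∀ j, s j = s (Fin.rev j)) ∧
    ∀ i j : Fin m, i ≤ j → (j : ℕ) + 1 ≤ (m + 1) / 2 → s i ≤ s j

/-! ### The makespan of two jobs on three stations -/

/-- makespan formula -/
noncomputable def L (x : Fin 2 → Fin 3 → ℝ) (α β γ : ℝ) : ℝ :=
  x 0 0 * α + x 1 2 * γ +
    max (max (x 1 0 * α + x 1 1 * β) (x 0 1 * β + x 1 1 * β)) (x 0 1 * β + x 0 2 * γ)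

/-- The regimes covered by the counterexample: all except communications blocking with `b = 0`. -/
def Covered (r : Regime) : Prop := r ≠ .communications 0

lemma depart_eq (r : Regime) (hr : Covered r) (x : Fin 2 → Fin 3 → ℝ) (hx : ∀ i j, 0 ≤ x i j)
    (s : Fin 3 → ℝ) (hs : ∀ j, 0 < s j) :
    depart (occ x s) 3 r 2 3 = L x (s 0)⁻¹ (s 1)⁻¹ (s 2)⁻¹ := by
  have h00 : 0 ≤ x 0 0 / s 0 := div_nonneg (hx _ _) (hs _).le
  have h01 : 0 ≤ x 0 1 / s 1 := div_nonneg (hx _ _) (hs _).le
  have h02 : 0 ≤ x 0 2 / s 2 := div_nonneg (hx _ _) (hs _).le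
  have h10 : 0 ≤ x 1 0 / s 0 := div_nonneg (hx _ _) (hs _).le
  have h11 : 0 ≤ x 1 1 / s 1 := div_nonneg (hx _ _) (hs _).le
  have h12 : 0 ≤ x 1 2 / s 2 := div_nonneg (hx _ _) (hs _).le
  have e11 : occ x s 1 1 = x 0 0 / s 0 := by simp [occ]
  have e12 : occ x s 1 2 = x 0 1 / s 1 := by simp [occ]
  have e13 : occ x s 1 3 = x 0 2 / s 2 := by simp [occ]
  have e21 : occ x s 2 1 = x 1 0 / s 0 := by simp [occ]
  have e22 : occ x s 2 2 = x 1 1 / s 1 := by simp [occ]
  have e23 : occ x s 2 3 = x 1 2 / s 2 := by simp [occ]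
  have hL : L x (s 0)⁻¹ (s 1)⁻¹ (s 2)⁻¹ = x 0 0 / s 0 + x 1 2 / s 2 +
      max (max (x 1 0 / s 0 + x 1 1 / s 1) (x 0 1 / s 1 + x 1 1 / s 1))
        (x 0 1 / s 1 + x 0 2 / s 2) := by
    simp only [L, div_eq_mul_inv]
  rw [hL]
  generalize x 0 0 / s 0 = a at *
  generalize x 0 1 / s 1 = b at *
  generalize x 0 2 / s 2 = c at *
  generalize x 1 0 / s 0 = d at *
  generalize x 1 1 / s 1 = e at *
  generalize x 1 2 / s 2 = f at *
  have hab : 0 ≤ a + b := add_nonneg h00 h01
  have key : max (a + max d b + e + f) (a + b + c + f) =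
      a + f + max (max (d + e) (b + e)) (b + c) := by
    simp only [max_def]; split_ifs <;> linarith
  cases r with
  | unlimited =>
    have D0 : ∀ j, depart (occ x s) 3 .unlimited 0 j = 0 := fun j => by simp only [depart]
    have Z1 : depart (occ x s) 3 .unlimited 1 0 = 0 := by simp only [depart]
    have Z2 : depart (occ x s) 3 .unlimited 2 0 = 0 := by simp only [depart]
    have D11 : depart (occ x s) 3 .unlimited 1 1 = a := by
      rw [depart]; simp [D0, Z1, e11]
    have D12 : depart (occ x s) 3 .unlimited 1 2 = a + b := by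
      rw [depart]; simp [D0, D11, e12, h00]
    have D13 : depart (occ x s) 3 .unlimited 1 3 = a + b + c := by
      rw [depart]; simp [D0, D12, e13, hab]
    have D21 : depart (occ x s) 3 .unlimited 2 1 = a + d := by
      rw [depart]; simp [Z2, D11, e21, h00]
    have D22 : depart (occ x s) 3 .unlimited 2 2 = a + max d b + e := by
      rw [depart]; simp [D21, D12, e22, max_add_add_left]
    rw [depart]
    simp only [Nat.reduceAdd, D22, D13, e23]
    rw [← key, max_add_add_right]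
  | manufacturing k =>
    have D0 : ∀ j, depart (occ x s) 3 (.manufacturing k) 0 j = 0 := fun j => by simp only [depart]
    have Z1 : depart (occ x s) 3 (.manufacturing k) 1 0 = 0 := by simp only [depart]
    have Z2 : depart (occ x s) 3 (.manufacturing k) 2 0 = 0 := by simp only [depart]
    have D11 : depart (occ x s) 3 (.manufacturing k) 1 1 = a := by
      rw [depart]; simp [D0, Z1, e11, h00]
    have D12 : depart (occ x s) 3 (.manufacturing k) 1 2 = a + b := by
      rw [depart]; simp [D0, D11, e12, h00, hab]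
    have D13 : depart (occ x s) 3 (.manufacturing k) 1 3 = a + b + c := by
      rw [depart]; simp [D0, D12, e13, hab, add_nonneg hab h02]
    rcases Nat.eq_zero_or_pos k with hk | hk
    · subst hk
      have D21 : depart (occ x s) 3 (.manufacturing 0) 2 1 = a + max d b := by
        rw [depart]; simp [Z2, D11, D12, e21, h00, max_add_add_left]
      have D22 : depart (occ x s) 3 (.manufacturing 0) 2 2 =
          max (a + max d b + e) (a + b + c) := by
        rw [depart]; simp only [Nat.reduceAdd, D21, D12, e22]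
        have : depart (occ x s) 3 (.manufacturing 0) (1 - 0) (1 + 2) = a + b + c := D13
        rw [this, if_pos (by norm_num)]
        congr 1
        apply max_eq_left
        have := le_max_right d b
        linarith
      rw [depart]
      simp only [Nat.reduceAdd, D22, D13, e23]
      rw [← key, if_neg (by norm_num), max_eq_left, max_add_add_right, max_add_add_right,
        max_assoc, max_self]
      have h1 : a + b + c ≤ max (a + max d b + e) (a + b + c) := le_max_right _ _
      have h2 : 0 ≤ a + b + c := add_nonneg hab h02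
      exact le_max_of_le_right (by linarith)
    · have h1k : 1 - k = 0 := by omega
      have D21 : depart (occ x s) 3 (.manufacturing k) 2 1 = a + d := by
        rw [depart]; simp [Z2, D11, h1k, D0, e21, h00, add_nonneg h00 h10]
      have D22 : depart (occ x s) 3 (.manufacturing k) 2 2 = a + max d b + e := by
        rw [depart]; simp only [Nat.reduceAdd, D21, D12, e22, h1k, D0]
        rw [ite_self, max_add_add_right, max_add_add_left, max_eq_left]
        have := le_max_left d b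
        linarith
      rw [depart]
      simp only [Nat.reduceAdd, D22, D13, e23]
      rw [← key, if_neg (by norm_num), max_eq_left]
      have h2 : 0 ≤ a + b + c := add_nonneg hab h02
      exact le_max_of_le_right (by linarith)
  | communications k =>
    have hk : 0 < k := by
      rcases Nat.eq_zero_or_pos k with h | h
      · subst h; exact absurd rfl hr
      · exact h
    have D0 : ∀ j, depart (occ x s) 3 (.communications k) 0 j = 0 := fun j => by simp only [depart]
    have Z1 : depart (occ x s) 3 (.communications k) 1 0 = 0 := by simp only [depart]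
    have Z2 : depart (occ x s) 3 (.communications k) 2 0 = 0 := by simp only [depart]
    have h1k : 1 - k = 0 := by omega
    have D11 : depart (occ x s) 3 (.communications k) 1 1 = a := by
      rw [depart]; simp [D0, Z1, e11]
    have D12 : depart (occ x s) 3 (.communications k) 1 2 = a + b := by
      rw [depart]; simp [D0, D11, e12, h00]
    have D13 : depart (occ x s) 3 (.communications k) 1 3 = a + b + c := by
      rw [depart]; simp [D0, D12, e13, hab]
    have D21 : depart (occ x s) 3 (.communications k) 2 1 = a + d := by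
      rw [depart]; simp [Z2, D11, h1k, D0, e21, h00]
    have D22 : depart (occ x s) 3 (.communications k) 2 2 = a + max d b + e := by
      rw [depart]; simp [D21, D12, h1k, D0, e22, max_add_add_left]
      exact add_nonneg h00 (le_max_of_le_left h10)
    rw [depart]
    simp only [Nat.reduceAdd, D22, D13, e23]
    have h1 : 0 ≤ a + b + c := add_nonneg hab h02
    rw [← key, if_neg (by norm_num), max_eq_left, max_add_add_right]
    exact le_max_of_le_right h1

/-! ### The distribution -/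

/-- the support `100, 101, …, 107` -/
noncomputable def v (k : Fin 8) : ℝ := 100 + (k : ℕ)

/-- the uniform law on `Fin 8` -/
noncomputable def unif8 : Measure (Fin 8) := (8 : ENNReal)⁻¹ • Measure.count

instance : IsProbabilityMeasure unif8 := by
  constructor
  simp [unif8, Measure.count_univ]
  exact ENNReal.inv_mul_cancel (by norm_num) (by norm_num)

/-- the uniform law on `{100, …, 107}` -/
noncomputable def mu0 : Measure ℝ := unif8.map v

lemma meas_v : Measurable v := measurable_of_finite _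

instance : IsProbabilityMeasure mu0 := Measure.isProbabilityMeasure_map meas_v.aemeasurable

lemma unif8_singleton (k : Fin 8) : unif8 {k} = (8 : ENNReal)⁻¹ := by
  simp [unif8]

lemma pi_eq_map : (Measure.pi fun _ : Fin 2 => Measure.pi fun _ : Fin 3 => mu0) =
    (Measure.pi fun _ : Fin 2 => Measure.pi fun _ : Fin 3 => unif8).map
      (fun x i j => v (x i j)) := by
  have h1 : (Measure.pi fun _ : Fin 3 => mu0) =
      (Measure.pi fun _ : Fin 3 => unif8).map (fun x j => v (x j)) := by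
    rw [Measure.pi_map_pi (fun _ => meas_v.aemeasurable)]
    rfl
  have m1 : Measurable (fun (x : Fin 3 → Fin 8) (j : Fin 3) => v (x j)) :=
    measurable_of_finite _
  rw [h1]
  have : IsProbabilityMeasure ((Measure.pi fun _ : Fin 3 => unif8).map
    (fun (x : Fin 3 → Fin 8) j => v (x j))) := Measure.isProbabilityMeasure_map m1.aemeasurable
  exact (Measure.pi_map_pi (μ := fun _ : Fin 2 => Measure.pi fun _ : Fin 3 => unif8)
    (f := fun _ (x : Fin 3 → Fin 8) j => v (x j)) (fun _ => m1.aemeasurable)).symm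

lemma integral_pi (f : (Fin 2 → Fin 3 → ℝ) → ℝ) (hf : Measurable f) :
    ∫ x, f x ∂(Measure.pi fun _ : Fin 2 => Measure.pi fun _ : Fin 3 => mu0) =
      (1 / 8 ^ 6 : ℝ) * ∑ k : Fin 2 → Fin 3 → Fin 8, f (fun i j => v (k i j)) := by
  rw [pi_eq_map, integral_map (measurable_of_finite _).aemeasurable hf.aestronglyMeasurable,
    integral_fintype (Integrable.of_finite), Finset.mul_sum]
  refine Finset.sum_congr rfl fun k _ => ?_
  have : (Measure.pi fun _ : Fin 2 => Measure.pi fun _ : Fin 3 => unif8).real {k} = 1 / 8 ^ 6 := by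
    simp only [Measure.real, Measure.pi_singleton, unif8_singleton]
    simp [ENNReal.toReal_pow]
    norm_num
  rw [this, smul_eq_mul]

lemma ae_nonneg : ∀ᵐ x ∂(Measure.pi fun _ : Fin 2 => Measure.pi fun _ : Fin 3 => mu0),
    ∀ i j, 0 ≤ x i j := by
  have hm : MeasurableSet {x : Fin 2 → Fin 3 → ℝ | ∀ i j, 0 ≤ x i j} := by
    have : {x : Fin 2 → Fin 3 → ℝ | ∀ i j, 0 ≤ x i j} = ⋂ i, ⋂ j, {x | 0 ≤ x i j} := by
      ext x; simp
    rw [this]
    exact MeasurableSet.iInter fun i => MeasurableSet.iInter fun j =>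
      measurableSet_le measurable_const (by fun_prop)
  rw [pi_eq_map, ae_map_iff (measurable_of_finite _).aemeasurable hm]
  refine Filter.Eventually.of_forall fun x i j => ?_
  simp only [v]; positivity

/-- the explicit expected makespan -/
noncomputable def H (s : Fin 3 → ℝ) : ℝ :=
  (1 / 8 ^ 6 : ℝ) * ∑ k : Fin 2 → Fin 3 → Fin 8,
    L (fun i j => v (k i j)) (s 0)⁻¹ (s 1)⁻¹ (s 2)⁻¹

lemma expMakespan_eq (r : Regime) (hr : Covered r) (s : Fin 3 → ℝ) (hs : ∀ j, 0 < s j) :
    expMakespan mu0 r 2 3 s = H s := by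
  have h1 : expMakespan mu0 r 2 3 s = ∫ x, L x (s 0)⁻¹ (s 1)⁻¹ (s 2)⁻¹
      ∂(Measure.pi fun _ : Fin 2 => Measure.pi fun _ : Fin 3 => mu0) := by
    refine integral_congr_ae ?_
    filter_upwards [ae_nonneg] with x hx
    exact depart_eq r hr x hx s hs
  rw [h1, integral_pi _ (by unfold L; fun_prop)]
  rfl

/-! ### Convexity -/

lemma inv_conv {t p q : ℝ} (ht : 0 ≤ t) (ht1 : t ≤ 1) (hp : 0 < p) (hq : 0 < q) :
    (t * p + (1 - t) * q)⁻¹ ≤ t * p⁻¹ + (1 - t) * q⁻¹ := by
  have h1t : 0 ≤ 1 - t := by linarith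
  have hpos : 0 < t * p + (1 - t) * q := by
    rcases eq_or_lt_of_le ht with h | h
    · rw [← h]; simpa using hq
    · have := mul_pos h hp
      have := mul_nonneg h1t hq.le
      linarith
  rw [inv_le_iff_one_le_mul₀ hpos]
  have hpq : p * p⁻¹ = 1 := mul_inv_cancel₀ hp.ne'
  have hqq : q * q⁻¹ = 1 := mul_inv_cancel₀ hq.ne'
  have h2 : 2 ≤ p * q⁻¹ + q * p⁻¹ := by
    have h3 : 0 < p * q⁻¹ := by positivity
    have h4 : (p * q⁻¹) * (q * p⁻¹) = 1 := by
      calc (p * q⁻¹) * (q * p⁻¹) = (p * p⁻¹) * (q * q⁻¹) := by ring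
        _ = 1 := by rw [hpq, hqq]; ring
    have h5 : 0 < q * p⁻¹ := by positivity
    nlinarith [sq_nonneg (p * q⁻¹ - q * p⁻¹), sq_nonneg (p * q⁻¹ + q * p⁻¹ - 2)]
  have h6 : (t * p⁻¹ + (1 - t) * q⁻¹) * (t * p + (1 - t) * q) =
      t ^ 2 * (p * p⁻¹) + (1 - t) ^ 2 * (q * q⁻¹) + t * (1 - t) * (p * q⁻¹ + q * p⁻¹) := by ring
  rw [h6, hpq, hqq]
  nlinarith [mul_le_mul_of_nonneg_left h2 (mul_nonneg ht h1t)]

lemma L_conv (x : Fin 2 → Fin 3 → ℝ) (hx : ∀ i j, 0 ≤ x i j) {t : ℝ} (ht : 0 ≤ t) (ht1 : t ≤ 1)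
    {α β γ α₁ β₁ γ₁ α₂ β₂ γ₂ : ℝ} (hα : α ≤ t * α₁ + (1 - t) * α₂)
    (hβ : β ≤ t * β₁ + (1 - t) * β₂) (hγ : γ ≤ t * γ₁ + (1 - t) * γ₂) :
    L x α β γ ≤ t * L x α₁ β₁ γ₁ + (1 - t) * L x α₂ β₂ γ₂ := by
  have h1t : 0 ≤ 1 - t := by linarith
  simp only [L]
  have a00 := mul_le_mul_of_nonneg_left hα (hx 0 0)
  have a12 := mul_le_mul_of_nonneg_left hγ (hx 1 2)
  have a10 := mul_le_mul_of_nonneg_left hα (hx 1 0)
  have a11 := mul_le_mul_of_nonneg_left hβ (hx 1 1)
  have a01 := mul_le_mul_of_nonneg_left hβ (hx 0 1)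
  have a02 := mul_le_mul_of_nonneg_left hγ (hx 0 2)
  set M₁ := max (max (x 1 0 * α₁ + x 1 1 * β₁) (x 0 1 * β₁ + x 1 1 * β₁))
    (x 0 1 * β₁ + x 0 2 * γ₁) with hM₁
  set M₂ := max (max (x 1 0 * α₂ + x 1 1 * β₂) (x 0 1 * β₂ + x 1 1 * β₂))
    (x 0 1 * β₂ + x 0 2 * γ₂) with hM₂
  have b1 : x 1 0 * α₁ + x 1 1 * β₁ ≤ M₁ := (le_max_left _ _).trans (le_max_left _ _)
  have b2 : x 0 1 * β₁ + x 1 1 * β₁ ≤ M₁ := (le_max_right _ _).trans (le_max_left _ _)
  have b3 : x 0 1 * β₁ + x 0 2 * γ₁ ≤ M₁ := le_max_right _ _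
  have c1 : x 1 0 * α₂ + x 1 1 * β₂ ≤ M₂ := (le_max_left _ _).trans (le_max_left _ _)
  have c2 : x 0 1 * β₂ + x 1 1 * β₂ ≤ M₂ := (le_max_right _ _).trans (le_max_left _ _)
  have c3 : x 0 1 * β₂ + x 0 2 * γ₂ ≤ M₂ := le_max_right _ _
  have b1' := mul_le_mul_of_nonneg_left b1 ht
  have b2' := mul_le_mul_of_nonneg_left b2 ht
  have b3' := mul_le_mul_of_nonneg_left b3 ht
  have c1' := mul_le_mul_of_nonneg_left c1 h1t
  have c2' := mul_le_mul_of_nonneg_left c2 h1t
  have c3' := mul_le_mul_of_nonneg_left c3 h1t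
  have d : max (max (x 1 0 * α + x 1 1 * β) (x 0 1 * β + x 1 1 * β)) (x 0 1 * β + x 0 2 * γ) ≤
      t * M₁ + (1 - t) * M₂ := by
    refine max_le (max_le ?_ ?_) ?_ <;> linarith
  linarith

lemma v_nonneg (k : Fin 8) : 0 ≤ v k := by simp only [v]; positivity

lemma H_conv {t : ℝ} (ht : 0 ≤ t) (ht1 : t ≤ 1) {p q : Fin 3 → ℝ} (hp : ∀ j, 0 < p j)
    (hq : ∀ j, 0 < q j) : H (fun j => t * p j + (1 - t) * q j) ≤ t * H p + (1 - t) * H q := by
  have h := Finset.sum_le_sum (s := (Finset.univ : Finset (Fin 2 → Fin 3 → Fin 8)))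
    (fun k _ => L_conv (fun i j => v (k i j)) (fun i j => v_nonneg _) ht ht1
      (inv_conv ht ht1 (hp 0) (hq 0)) (inv_conv ht ht1 (hp 1) (hq 1))
      (inv_conv ht ht1 (hp 2) (hq 2)))
  rw [Finset.sum_add_distrib, ← Finset.mul_sum, ← Finset.mul_sum] at h
  have h8 : (0 : ℝ) ≤ 1 / 8 ^ 6 := by positivity
  have h' := mul_le_mul_of_nonneg_left h h8
  simp only [H]
  calc _ ≤ _ := h'
    _ = _ := by ring

/-! ### Numerical evaluation -/

/-- arrays as tuples -/
def arr : (Fin 2 → Fin 3 → Fin 8) ≃ Fin 8 × Fin 8 × Fin 8 × Fin 8 × Fin 8 × Fin 8 where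
  toFun k := (k 0 0, k 0 1, k 0 2, k 1 0, k 1 1, k 1 2)
  invFun t := ![![t.1, t.2.1, t.2.2.1], ![t.2.2.2.1, t.2.2.2.2.1, t.2.2.2.2.2]]
  left_inv k := by
    ext i j
    fin_cases i <;> fin_cases j <;> rfl
  right_inv t := rfl

lemma sum_arr (f : (Fin 2 → Fin 3 → Fin 8) → ℝ) :
    ∑ k, f k = ∑ a, ∑ b, ∑ c, ∑ d, ∑ e, ∑ g, f ![![a, b, c], ![d, e, g]] := by
  rw [← Equiv.sum_comp arr.symm f]
  simp only [Fintype.sum_prod_type]
  rfl

/-- integer value of the maximum -/
def M (p q b c d e : ℕ) : ℕ :=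
  max (max ((100 + d) * p + (100 + e) * q) ((100 + b) * q + (100 + e) * q))
    ((100 + b) * q + (100 + c) * p)

lemma sum_L (p q : ℕ) :
    ∑ k : Fin 2 → Fin 3 → Fin 8, L (fun i j => v (k i j)) p q p =
      (2 * 8 ^ 5 * 828 * p + 64 *
        (∑ b : Fin 8, ∑ c : Fin 8, ∑ d : Fin 8, ∑ e : Fin 8, M p q b c d e) : ℕ) := by
  rw [sum_arr]
  have hv : ∑ k : Fin 8, v k = 828 := by
    simp only [v, Fin.sum_univ_succ]; norm_num
  have hM : ∀ b c d e : Fin 8, max (max (v d * (p : ℝ) + v e * q) (v b * q + v e * q))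
      (v b * q + v c * p) = ((M p q b c d e : ℕ) : ℝ) := by
    intro b c d e
    simp only [M, v]
    push_cast
    rfl
  simp only [L]
  have h : ∀ a b c d e g : Fin 8,
      v (![![a, b, c], ![d, e, g]] 0 0) * (p : ℝ) + v (![![a, b, c], ![d, e, g]] 1 2) * p +
        max (max (v (![![a, b, c], ![d, e, g]] 1 0) * (p : ℝ) +
          v (![![a, b, c], ![d, e, g]] 1 1) * q)
          (v (![![a, b, c], ![d, e, g]] 0 1) * q + v (![![a, b, c], ![d, e, g]] 1 1) * q))
          (v (![![a, b, c], ![d, e, g]] 0 1) * q + v (![![a, b, c], ![d, e, g]] 0 2) * p) =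
        v a * p + v g * p + ((M p q b c d e : ℕ) : ℝ) := by
    intro a b c d e g
    rw [← hM]
    rfl
  simp only [h]
  simp only [Finset.sum_add_distrib, Finset.sum_const, Finset.card_univ, Fintype.card_fin,
    nsmul_eq_mul, ← Finset.mul_sum, ← Finset.sum_mul, hv]
  push_cast
  ring

lemma sum_M1 : (∑ b : Fin 8, ∑ c : Fin 8, ∑ d : Fin 8, ∑ e : Fin 8, M 1 1 b c d e) = 857028 := by
  decide +kernel

lemma sum_M2 : (∑ b : Fin 8, ∑ c : Fin 8, ∑ d : Fin 8, ∑ e : Fin 8, M 41500 41750 b c d e) =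
    35707356000 := by
  decide +kernel

lemma L_smul (x : Fin 2 → Fin 3 → ℝ) {t : ℝ} (ht : 0 ≤ t) (α β γ : ℝ) :
    L x (t * α) (t * β) (t * γ) = t * L x α β γ := by
  simp only [L]
  rw [mul_add, mul_add, mul_max_of_nonneg _ _ ht, mul_max_of_nonneg _ _ ht]
  congr 1
  · ring
  · congr 1
    · congr 1 <;> ring
    · ring

/-- equal speeds -/
noncomputable def sEq : Fin 3 → ℝ := fun _ => 1 / 3

/-- the better allocation -/
noncomputable def sStar : Fin 3 → ℝ := fun j => if j = 1 then 83 / 250 else 167 / 500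

lemma sStar0 : sStar 0 = 167 / 500 := if_neg (by decide)
lemma sStar1 : sStar 1 = 83 / 250 := if_pos rfl
lemma sStar2 : sStar 2 = 167 / 500 := if_neg (by decide)

lemma H_eq : H sEq = 3 * (2 * 8 ^ 5 * 828 + 64 * 857028) / 8 ^ 6 := by
  have h : ∀ k : Fin 2 → Fin 3 → Fin 8, L (fun i j => v (k i j)) (sEq 0)⁻¹ (sEq 1)⁻¹ (sEq 2)⁻¹ =
      3 * L (fun i j => v (k i j)) ((1 : ℕ) : ℝ) ((1 : ℕ) : ℝ) ((1 : ℕ) : ℝ) := by
    intro k
    rw [← L_smul _ (by norm_num)]
    norm_num [sEq]
  simp only [H, h]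
  rw [← Finset.mul_sum, sum_L, sum_M1]
  norm_num

lemma H_star : H sStar = (2 * 8 ^ 5 * 828 * 41500 + 64 * 35707356000) / 13861 / 8 ^ 6 := by
  have h : ∀ k : Fin 2 → Fin 3 → Fin 8,
      L (fun i j => v (k i j)) (sStar 0)⁻¹ (sStar 1)⁻¹ (sStar 2)⁻¹ =
      (1 / 13861) * L (fun i j => v (k i j)) ((41500 : ℕ) : ℝ) ((41750 : ℕ) : ℝ)
        ((41500 : ℕ) : ℝ) := by
    intro k
    rw [← L_smul _ (by norm_num), sStar0, sStar1, sStar2]
    norm_num
  simp only [H, h]
  rw [← Finset.mul_sum, sum_L, sum_M2]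
  norm_num

lemma H_lt : H sStar < H sEq := by
  rw [H_eq, H_star]; norm_num

lemma sEq_pos (j : Fin 3) : 0 < sEq j := by norm_num [sEq]

lemma sStar_pos (j : Fin 3) : 0 < sStar j := by
  simp only [sStar]; split_ifs <;> norm_num

lemma sEq_mem : sEq ∈ allocations 3 := ⟨sEq_pos, by norm_num [sEq]⟩

lemma sStar_mem : sStar ∈ allocations 3 := ⟨sStar_pos, by
  rw [Fin.sum_univ_three, sStar0, sStar1, sStar2]
  norm_num⟩

/-- A bowl-shaped allocation is strictly worse than `sStar`. -/
lemma bowl_worse (s : Fin 3 → ℝ) (hs : s ∈ allocations 3) (hb : BowlShaped s) :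
    H sStar < H s := by
  obtain ⟨hpos, hsum⟩ := hs
  obtain ⟨hsym, hmono⟩ := hb
  have h20 : s 2 = s 0 := (hsym 2)
  have h01 : s 0 ≤ s 1 := hmono 0 1 (by decide) (by decide)
  have hsum' : s 0 + s 1 + s 2 = 1 := by rw [← hsum, Fin.sum_univ_three]
  have h0 : s 0 ≤ 1 / 3 := by linarith
  have h1 : s 1 = 1 - 2 * s 0 := by linarith
  set a := s 0 with ha
  set t : ℝ := (1 / 1500) / (167 / 500 - a) with ht
  have hden : 0 < 167 / 500 - a := by linarith
  have ht0 : 0 < t := by positivity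
  have ht1 : t ≤ 1 := by
    rw [ht, div_le_one hden]; linarith
  have hta : t * (167 / 500 - a) = 1 / 1500 := by
    rw [ht]; exact div_mul_cancel₀ _ hden.ne'
  have hcomb : sEq = fun j => t * s j + (1 - t) * sStar j := by
    ext j
    fin_cases j
    · simp only [sEq, Fin.zero_eta, sStar0, ← ha]
      linarith
    · simp only [sEq, Fin.mk_one, sStar1, h1]
      linarith
    · simp only [sEq, Fin.reduceFinMk, sStar2, h20]
      linarith
  have hc := H_conv ht0.le ht1 hpos sStar_pos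
  rw [← hcomb] at hc
  have hl := H_lt
  by_contra hcon
  push Not at hcon
  have h3 : t * H s ≤ t * H sStar := mul_le_mul_of_nonneg_left hcon ht0.le
  linarith

/-! ### Existence of an optimal allocation -/

lemma L_ge (x : Fin 2 → Fin 3 → ℝ) (hx : ∀ i j, 100 ≤ x i j) {s : Fin 3 → ℝ}
    (hs : ∀ j, 0 < s j) (j : Fin 3) :
    100 * (s j)⁻¹ ≤ L x (s 0)⁻¹ (s 1)⁻¹ (s 2)⁻¹ := by
  have p0 : 0 < (s 0)⁻¹ := inv_pos.mpr (hs 0)
  have p1 : 0 < (s 1)⁻¹ := inv_pos.mpr (hs 1)
  have p2 : 0 < (s 2)⁻¹ := inv_pos.mpr (hs 2)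
  have a0 := mul_le_mul_of_nonneg_right (hx 0 0) p0.le
  have a1 := mul_le_mul_of_nonneg_right (hx 0 1) p1.le
  have a2 := mul_le_mul_of_nonneg_right (hx 0 2) p2.le
  have a3 := mul_le_mul_of_nonneg_right (hx 1 2) p2.le
  have b := le_max_right (max (x 1 0 * (s 0)⁻¹ + x 1 1 * (s 1)⁻¹)
    (x 0 1 * (s 1)⁻¹ + x 1 1 * (s 1)⁻¹)) (x 0 1 * (s 1)⁻¹ + x 0 2 * (s 2)⁻¹)
  simp only [L]
  fin_cases j
  · simp only [Fin.zero_eta]; linarith
  · simp only [Fin.mk_one]; linarith
  · simp only [Fin.reduceFinMk]; linarith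

lemma v_ge (k : Fin 8) : 100 ≤ v k := by simp only [v]; linarith [Nat.cast_nonneg (α := ℝ) (k : ℕ)]

lemma H_ge {s : Fin 3 → ℝ} (hs : ∀ j, 0 < s j) (j : Fin 3) : 100 * (s j)⁻¹ ≤ H s := by
  have h := Finset.card_nsmul_le_sum (Finset.univ : Finset (Fin 2 → Fin 3 → Fin 8))
    (fun k => L (fun i j => v (k i j)) (s 0)⁻¹ (s 1)⁻¹ (s 2)⁻¹) (100 * (s j)⁻¹)
    (fun k _ => L_ge _ (fun i j => v_ge _) hs j)
  have hc : (Finset.univ : Finset (Fin 2 → Fin 3 → Fin 8)).card = 8 ^ 6 := by
    simp [Finset.card_univ]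
  rw [hc, nsmul_eq_mul] at h
  have h8 : (0 : ℝ) ≤ 1 / 8 ^ 6 := by positivity
  have h' := mul_le_mul_of_nonneg_left h h8
  simp only [H]
  refine le_trans (le_of_eq ?_) h'
  push_cast
  ring

lemma exists_opt (r : Regime) (hr : Covered r) : ∃ s, IsOptimal mu0 r 2 3 s := by
  set K : Set (Fin 3 → ℝ) := Set.Icc (fun _ => 1 / 13) (fun _ => 1) ∩ {s | ∑ j, s j = 1} with hK
  have hKc : IsCompact K := isCompact_Icc.inter_right
    (isClosed_eq (by fun_prop) continuous_const)
  have hKe : sEq ∈ K := ⟨⟨fun j => by norm_num [sEq], fun j => by norm_num [sEq]⟩, sEq_mem.2⟩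
  have hKpos : ∀ s ∈ K, ∀ j, 0 < s j := fun s hs j => by
    have := hs.1.1 j
    simp only at this
    linarith
  have hcont : ContinuousOn H K := by
    have hinv : ∀ j : Fin 3, ContinuousOn (fun s : Fin 3 → ℝ => (s j)⁻¹) K := fun j =>
      (continuous_apply j).continuousOn.inv₀ (fun s hs => (hKpos s hs j).ne')
    have h0 := hinv 0
    have h1 := hinv 1
    have h2 := hinv 2
    have hL : ∀ x : Fin 2 → Fin 3 → ℝ,
        ContinuousOn (fun s : Fin 3 → ℝ => L x (s 0)⁻¹ (s 1)⁻¹ (s 2)⁻¹) K := by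
      intro x
      unfold L
      fun_prop
    exact continuousOn_const.mul (continuousOn_finsetSum _ fun k _ => hL _)
  obtain ⟨s0, hs0, hmin⟩ := hKc.exists_isMinOn ⟨sEq, hKe⟩ hcont
  refine ⟨s0, ⟨hKpos s0 hs0, hs0.2⟩, fun s' hs' => ?_⟩
  rw [expMakespan_eq r hr s0 (hKpos s0 hs0), expMakespan_eq r hr s' hs'.1]
  by_cases h : s' ∈ K
  · exact hmin h
  · have hle1 : ∀ j, s' j ≤ 1 := fun j => by
      rw [← hs'.2]
      exact Finset.single_le_sum (fun i _ => (hs'.1 i).le) (Finset.mem_univ j)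
    have : ∃ j, s' j < 1 / 13 := by
      by_contra hcon
      push Not at hcon
      exact h ⟨⟨hcon, hle1⟩, hs'.2⟩
    obtain ⟨j, hj⟩ := this
    have h1 : H s0 ≤ H sEq := hmin hKe
    have h2 := H_ge hs'.1 j
    have h3 : (13 : ℝ) < (s' j)⁻¹ := by
      rw [lt_inv_comm₀ (by norm_num) (hs'.1 j)]
      simpa using hj
    have h4 : H sEq ≤ 1300 := by rw [H_eq]; norm_num
    linarith

/-! ### The result -/

/-- There is a law `μ` of the works (a probability measure on `[0, ∞)` with finite mean) such that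
for `n = 2` jobs and `m = 3` stations, in every buffer/blocking regime (unlimited buffers;
manufacturing blocking with any buffer size `b ≥ 0`; communications blocking with any buffer size
`b ≥ 1`), an optimal allocation of the speeds exists but no optimal allocation is bowl-shaped. -/
theorem result : ∃ μ : Measure ℝ, IsProbabilityMeasure μ ∧ (∀ᵐ x ∂μ, 0 ≤ x) ∧
    Integrable (fun x : ℝ => x) μ ∧
    ∀ r : Regime, r ≠ .communications 0 →
      (∃ s, IsOptimal μ r 2 3 s) ∧ ∀ s, IsOptimal μ r 2 3 s → ¬ BowlShaped s := by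
  refine ⟨mu0, inferInstance, ?_, ?_, fun r hr => ⟨exists_opt r hr, fun s hs hb => ?_⟩⟩
  · have hm : MeasurableSet {x : ℝ | 0 ≤ x} := measurableSet_Ici
    rw [mu0, ae_map_iff meas_v.aemeasurable hm]
    exact Filter.Eventually.of_forall v_nonneg
  · rw [mu0, integrable_map_measure (by fun_prop) meas_v.aemeasurable]
    exact Integrable.of_finite
  · have h1 := hs.2 sStar sStar_mem
    rw [expMakespan_eq r hr s hs.1.1, expMakespan_eq r hr sStar sStar_pos] at h1
    exact absurd (bowl_worse s hs.1 hb) (not_lt.mpr h1)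

end Pool.Agent.Results.MP_eb4cdf_pr.InvertedBowl
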